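import Pool.Agent.Lib.MP_c81844_nt.Avg7

/-!
# Almost all primes divide very few Euclid numbers (MP_c81844_nt)

Let `E n = 1 + p_1 ... p_n` be the `n`-th Euclid number (`Nat.nth Nat.Prime i` is `p_(i+1)`).
For every finite set `Q` of primes there are at most `|Q| + (3 / 2) * N * |Q| ^ (2 / 3)` pairs
`(q, n)`, `q` in `Q`, `n < N`, with `q` dividing `E n`. Hence at most `(3 N / (2 V)) ^ 3` primes,
of any size, divide more than `V` of the first `N` Euclid numbers.
-/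

namespace Pool.Agent.Results.MP_c81844_nt.AverageHits

theorem result :
    (∀ (N : ℕ) (Q : Finset ℕ), (∀ q ∈ Q, q.Prime) →
      ((∑ q ∈ Q, ((Finset.range N).filter
          (fun n => q ∣ 1 + ∏ i ∈ Finset.range n, Nat.nth Nat.Prime i)).card : ℕ) : ℝ) ≤
        Q.card + 3 / 2 * N * (Q.card : ℝ) ^ ((2 : ℝ) / 3)) ∧
    (∀ N V : ℕ, 1 ≤ V →
      {q : ℕ | q.Prime ∧ V < ((Finset.range N).filter
          (fun n => q ∣ 1 + ∏ i ∈ Finset.range n, Nat.nth Nat.Prime i)).card}.Finite ∧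
      ({q : ℕ | q.Prime ∧ V < ((Finset.range N).filter
          (fun n => q ∣ 1 + ∏ i ∈ Finset.range n, Nat.nth Nat.Prime i)).card}.ncard : ℝ) ≤
        (3 * N / (2 * V)) ^ 3) :=
  ⟨Pool.Agent.Lib.MP_c81844_nt.avg7, Pool.Agent.Lib.MP_c81844_nt.avgV7⟩

end Pool.Agent.Results.MP_c81844_nt.AverageHits
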