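import Pool.Agent.Lib.MP_c81844_nt.All26

/-!
# Every prime divides few Euclid numbers (MP_c81844_nt)

Let `E n = 1 + p_1 ... p_n` be the `n`-th Euclid number (`Nat.nth Nat.Prime i` is `p_(i+1)`).
There is `C` such that every prime `q` (of any size) divides at most `C * N * log log N / log N`
of the first `N` Euclid numbers, `N ≥ 3`.
-/

namespace Pool.Agent.Results.MP_c81844_nt.PrimeHits

theorem result :
    ∃ C : ℝ, 0 < C ∧ ∀ q N : ℕ, q.Prime → 3 ≤ N →
      (((Finset.range N).filter
          (fun n => q ∣ 1 + ∏ i ∈ Finset.range n, Nat.nth Nat.Prime i)).card : ℝ) ≤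
        C * N * Real.log (Real.log N) / Real.log N :=
  Pool.Agent.Lib.MP_c81844_nt.allM2

end Pool.Agent.Results.MP_c81844_nt.PrimeHits
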