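import Pool.Agent.Lib.MP_c81844_nt.All26

/-!
# Almost all Euclid numbers are far from squares (MP_c81844_nt)

Let `E n = 1 + p_1 ... p_n` be the `n`-th Euclid number (`Nat.nth Nat.Prime i` is `p_(i+1)`).

For almost all `n` the squarefree part of `E n` is larger than every fixed power of `n`, with a
rate: there is `C` such that for all `k` and all `N ≥ 3` at most
`(C (k + 1)) ^ (C (k + 1)) * N * log log N / log N` of the `n < N` have `E n = A * B ^ 2` with
`A ≤ N ^ k`.

Proof: if `E n = A * B ^ 2`, then `A = 3 (mod 4)` and all odd primes `r ≤ p_n` are trivial for the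
character of conductor `4 A` (reciprocity), hence all odd `p_n`-smooth numbers are;
the quadratic large sieve over the odd numbers below `N ^ (2 k + 1)` and the lower bound for smooth
numbers leave at most `(C (k + 1)) ^ (C (k + 1))` values of `A`; each of them has a prime divisor
`q`, and a fixed prime `q` (of any size) divides at most `C N log log N / log N` of the first `N`
Euclid numbers: if `q` divides `E n` and `E (n + k)`, then the product of the `k` primes between
is `1` mod `q`, and for a given pattern of the gaps the first prime is a root of a fixed monic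
polynomial of degree `k` modulo `q`.
-/

namespace Pool.Agent.Results.MP_c81844_nt.SquarefreePart

theorem result :
    ∃ C : ℕ, ∀ k N : ℕ, 3 ≤ N →
      ({n : ℕ | n < N ∧ ∃ A B : ℕ, A ≤ N ^ k ∧
          1 + ∏ i ∈ Finset.range n, Nat.nth Nat.Prime i = A * B ^ 2}.ncard : ℝ) ≤
        ((C * (k + 1)) ^ (C * (k + 1)) : ℕ) * N * Real.log (Real.log N) / Real.log N :=
  Pool.Agent.Lib.MP_c81844_nt.allF2

end Pool.Agent.Results.MP_c81844_nt.SquarefreePart
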